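import Pool.Agent.Helper58.PB.StB
import Pool.Agent.Helper48.BK.M_Bil

/-!
# Project PB (MP_3923f3_nt), module BI2: average of the second moments
-/

set_option autoImplicit false

namespace Pool.Agent.Helper83.PB

open Finset
open Pool.Agent.Helper58.PB
open Pool.Agent.Helper48.BK (Sx rr StPar StDiv rr_eq_zero_Bil abs_rr_le_Bil dil_Bil count_Bil)

private theorem gcount_BI2 (ψ : ℕ → ℝ) (hψ0 : ∀ e, 0 ≤ ψ e) (m a : ℕ) (ha : 1 ≤ a) :
    ∑ b ∈ Icc 1 m, ψ (b / Nat.gcd a b) ≤ (a.divisors.card : ℝ) * ∑ e ∈ Icc 1 m, ψ e := by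
  have hg : ∀ b ∈ Icc 1 m, 1 ≤ b / Nat.gcd a b := by
    intro b hb
    have hb1 := (mem_Icc.1 hb).1
    exact Nat.div_pos (Nat.le_of_dvd (by omega) (Nat.gcd_dvd_right a b))
      (Nat.gcd_pos_of_pos_left b (by omega))
  have h2 : ∑ b ∈ Icc 1 m, ψ (b / Nat.gcd a b) ≤ ∑ x ∈ a.divisors ×ˢ Icc 1 m, ψ x.2 := by
    have hinj : Set.InjOn (fun b : ℕ => (Nat.gcd a b, b / Nat.gcd a b))
        ((Icc 1 m : Finset ℕ) : Set ℕ) := by
      intro b _ b' _ hbb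
      have e1 : Nat.gcd a b = Nat.gcd a b' := congrArg Prod.fst hbb
      have e2 : b / Nat.gcd a b = b' / Nat.gcd a b' := congrArg Prod.snd hbb
      rw [← Nat.mul_div_cancel' (Nat.gcd_dvd_right a b), e2, e1,
        Nat.mul_div_cancel' (Nat.gcd_dvd_right a b')]
    have h3 : ∑ b ∈ Icc 1 m, ψ (b / Nat.gcd a b) =
        ∑ x ∈ (Icc 1 m).image (fun b : ℕ => (Nat.gcd a b, b / Nat.gcd a b)), ψ x.2 :=
      (sum_image (f := fun x : ℕ × ℕ => ψ x.2) hinj).symm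
    rw [h3]
    refine sum_le_sum_of_subset_of_nonneg (fun x hx => ?_) fun _ _ _ => hψ0 _
    obtain ⟨b, hb, rfl⟩ := mem_image.1 hx
    refine mem_product.2 ⟨Nat.mem_divisors.2 ⟨Nat.gcd_dvd_left a b, by omega⟩,
      mem_Icc.2 ⟨hg b hb, ?_⟩⟩
    exact (Nat.div_le_self _ _).trans (mem_Icc.1 hb).2
  have h4 : ∑ x ∈ a.divisors ×ˢ Icc 1 m, ψ x.2 = (a.divisors.card : ℝ) * ∑ e ∈ Icc 1 m, ψ e := by
    rw [sum_product]
    change ∑ _x ∈ a.divisors, ∑ y ∈ Icc 1 m, ψ y = _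
    rw [sum_const, nsmul_eq_mul]
  exact h2.trans h4.le

/-- the number of pairs `(b, k)` with `b' k ≤ X` -/
private theorem pairs_BI2 (X B a : ℕ) (ha : 1 ≤ a) :
    ∑ b ∈ Icc 1 B, ∑ k ∈ Icc 1 X, (if b / Nat.gcd a b * k ≤ X then (1 : ℝ) else 0) ≤
      (a.divisors.card : ℝ) * (X * (1 + Real.log B)) := by
  set φ : ℕ → ℝ := fun h => if h ≤ X then 1 else 0 with hφ
  have hφ0 : ∀ h, 0 ≤ φ h := fun h => by rw [hφ]; dsimp only; split_ifs <;> norm_num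
  have hφX : ∀ h, X < h → φ h = 0 := fun h hh => by
    rw [hφ]; dsimp only; rw [if_neg (by omega)]
  set ψ : ℕ → ℝ := fun e => ∑ h ∈ (Icc 1 X).filter (fun h => e ∣ h), φ h with hψ
  have hψ0 : ∀ e, 0 ≤ ψ e := fun e => sum_nonneg fun _ _ => hφ0 _
  have hψ1 : ∀ e ∈ Icc 1 B, ψ e ≤ X * (1 / (e : ℝ)) := by
    intro e he
    have he1 := (mem_Icc.1 he).1
    have he0 : (0 : ℝ) < e := by exact_mod_cast he1
    have h1 : ψ e ≤ ∑ _h ∈ (Icc 1 X).filter (fun h => e ∣ h), (1 : ℝ) := by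
      refine sum_le_sum fun h _ => ?_
      rw [hφ]; dsimp only; split_ifs <;> norm_num
    refine h1.trans ?_
    rw [sum_const, nsmul_eq_mul, mul_one]
    have h2 : ((Icc 1 X).filter (fun h => e ∣ h)).card = X / e := by
      have h3 : (Icc 1 X).filter (fun h => e ∣ h) = (Ioc 0 X).filter (fun h => e ∣ h) := rfl
      rw [h3, Nat.Ioc_filter_dvd_card_eq_div]
    rw [h2, mul_one_div]
    exact Nat.cast_div_le
  have h1 : ∑ b ∈ Icc 1 B, ∑ k ∈ Icc 1 X, φ (b / Nat.gcd a b * k) ≤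
      ∑ b ∈ Icc 1 B, ψ (b / Nat.gcd a b) := by
    refine sum_le_sum fun b hb => dil_Bil φ hφ0 X _ ?_ hφX
    have hb1 := (mem_Icc.1 hb).1
    exact Nat.div_pos (Nat.le_of_dvd (by omega) (Nat.gcd_dvd_right a b))
      (Nat.gcd_pos_of_pos_left b (by omega))
  refine h1.trans ((gcount_BI2 ψ hψ0 B a ha).trans ?_)
  refine mul_le_mul_of_nonneg_left ?_ (by positivity)
  refine (sum_le_sum hψ1).trans ?_
  rw [← mul_sum]
  refine mul_le_mul_of_nonneg_left ?_ (by positivity)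
  have h2 := harmonic_le_one_add_log B
  rw [harmonic_eq_sum_Icc] at h2
  push_cast at h2
  simpa only [one_div] using h2

theorem hBi2 (hPar : StPar) (hDiv : StDiv) (hCo : StCo2) : StBi2 := by
  intro F G X Y A B T M δ σ hX hY hA hB hM hδ hσ hF hG hT hS
  have hX1 : (1 : ℝ) ≤ X := by exact_mod_cast hX
  have hM0 : 0 ≤ M := by linarith
  have hA1 : (1 : ℝ) ≤ A := by exact_mod_cast hA
  have hB1 : (1 : ℝ) ≤ B := by exact_mod_cast hB
  set LA : ℝ := 1 + Real.log A with hLA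
  set LB : ℝ := 1 + Real.log B with hLB
  have hLA1 : 1 ≤ LA := by have := Real.log_nonneg hA1; linarith
  have hLB1 : 1 ≤ LB := by have := Real.log_nonneg hB1; linarith
  have hdA := (hDiv A hA).1
  -- one function
  have hone : ∀ a ∈ Icc 1 A, ∑ b ∈ Icc 1 B, ∑ k ∈ Icc 1 X,
      |rr (F a) X (b / Nat.gcd a b * k)| ≤
      (a.divisors.card : ℝ) * ((X : ℝ) ^ 2 * δ * √(T : ℝ) * (M * LB)) := by
    intro a hma
    have ha1 := (mem_Icc.1 hma).1
    have h3 : ∑ h ∈ Icc 1 X, rr (F a) X h ^ 2 ≤ (δ * X) ^ 2 * (X * M ^ 2) := by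
      have h4 := hPar (F a) X (δ * X) (hS a hma)
      have h5 : ∑ n ∈ Ioc 0 X, F a n ^ 2 ≤ X * M ^ 2 := by
        calc _ ≤ ∑ _n ∈ Ioc 0 X, M ^ 2 := by
              refine sum_le_sum fun n _ => ?_
              rw [← sq_abs]
              exact pow_le_pow_left₀ (abs_nonneg _) (hF a n) 2
          _ = X * M ^ 2 := by rw [sum_const, Nat.card_Ioc, nsmul_eq_mul, Nat.sub_zero]
      have h6 : 0 ≤ ∑ h ∈ Icc 1 X, rr (F a) X h ^ 2 := sum_nonneg fun _ _ => sq_nonneg _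
      have h7 := mul_le_mul_of_nonneg_left h5 (sq_nonneg (δ * X))
      nlinarith [sq_nonneg (rr (F a) X 0)]
    have h4 : ∑ h ∈ Icc 1 X, (h.divisors.card : ℝ) * rr (F a) X h ^ 2 ≤
        T * ((δ * X) ^ 2 * (X * M ^ 2)) := by
      calc _ ≤ ∑ h ∈ Icc 1 X, (T : ℝ) * rr (F a) X h ^ 2 := by
            refine sum_le_sum fun h hh => ?_
            refine mul_le_mul_of_nonneg_right ?_ (sq_nonneg _)
            exact_mod_cast hT h (mem_Icc.1 hh).1 (mem_Icc.1 hh).2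
        _ = T * ∑ h ∈ Icc 1 X, rr (F a) X h ^ 2 := by rw [mul_sum]
        _ ≤ _ := by gcongr
    have h5 : ∑ b ∈ Icc 1 B, ∑ k ∈ Icc 1 X, rr (F a) X (b / Nat.gcd a b * k) ^ 2 ≤
        (a.divisors.card : ℝ) * (T * ((δ * X) ^ 2 * (X * M ^ 2))) := by
      refine (count_Bil (fun h => rr (F a) X h ^ 2) (fun _ => sq_nonneg _) X B a ha1
        fun h hh => ?_).trans ?_
      · rw [rr_eq_zero_Bil _ hh.le]; norm_num
      · exact mul_le_mul_of_nonneg_left h4 (by positivity)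
    have h6 := pairs_BI2 X B a ha1
    have h7 := Real.sum_mul_le_sqrt_mul_sqrt (Icc 1 B ×ˢ Icc 1 X)
      (fun x : ℕ × ℕ => if x.1 / Nat.gcd a x.1 * x.2 ≤ X then (1 : ℝ) else 0)
      (fun x : ℕ × ℕ => |rr (F a) X (x.1 / Nat.gcd a x.1 * x.2)|)
    simp only [sum_product, sq_abs] at h7
    have h8 : ∑ b ∈ Icc 1 B, ∑ k ∈ Icc 1 X, |rr (F a) X (b / Nat.gcd a b * k)| =
        ∑ b ∈ Icc 1 B, ∑ k ∈ Icc 1 X, (if b / Nat.gcd a b * k ≤ X then (1 : ℝ) else 0) *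
          |rr (F a) X (b / Nat.gcd a b * k)| := by
      refine sum_congr rfl fun b _ => sum_congr rfl fun k _ => ?_
      split_ifs with h
      · rw [one_mul]
      · rw [rr_eq_zero_Bil _ (by omega)]; simp
    have h9 : ∑ b ∈ Icc 1 B, ∑ k ∈ Icc 1 X,
        (if b / Nat.gcd a b * k ≤ X then (1 : ℝ) else 0) ^ 2 =
        ∑ b ∈ Icc 1 B, ∑ k ∈ Icc 1 X, (if b / Nat.gcd a b * k ≤ X then (1 : ℝ) else 0) := by
      refine sum_congr rfl fun b _ => sum_congr rfl fun k _ => ?_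
      split_ifs <;> norm_num
    rw [h8]
    refine h7.trans ?_
    rw [h9]
    have hd0 : (0 : ℝ) ≤ (a.divisors.card : ℝ) := by positivity
    calc √(∑ b ∈ Icc 1 B, ∑ k ∈ Icc 1 X, (if b / Nat.gcd a b * k ≤ X then (1 : ℝ) else 0)) *
          √(∑ b ∈ Icc 1 B, ∑ k ∈ Icc 1 X, rr (F a) X (b / Nat.gcd a b * k) ^ 2)
        ≤ √((a.divisors.card : ℝ) * (X * LB)) *
          √((a.divisors.card : ℝ) * (T * ((δ * X) ^ 2 * (X * M ^ 2)))) := by gcongr
      _ ≤ √((a.divisors.card : ℝ) * (X * LB ^ 2)) *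
          √((a.divisors.card : ℝ) * (T * ((δ * X) ^ 2 * (X * M ^ 2)))) := by
          gcongr
          nlinarith
      _ = √(((a.divisors.card : ℝ) * ((X : ℝ) ^ 2 * δ * (M * LB))) ^ 2 * T) := by
          rw [← Real.sqrt_mul (by positivity)]
          congr 1
          ring
      _ = (a.divisors.card : ℝ) * ((X : ℝ) ^ 2 * δ * (M * LB)) * √(T : ℝ) := by
          rw [Real.sqrt_mul (by positivity), Real.sqrt_sq (by positivity)]
      _ = _ := by ring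
  have hall : ∑ a ∈ Icc 1 A, ∑ b ∈ Icc 1 B, ∑ k ∈ Icc 1 X,
      |rr (F a) X (b / Nat.gcd a b * k)| ≤
      A * LA * ((X : ℝ) ^ 2 * δ * √(T : ℝ) * (M * LB)) := by
    refine (sum_le_sum hone).trans ?_
    rw [← sum_mul]
    exact mul_le_mul_of_nonneg_right hdA (by positivity)
  -- assembly
  have hcell : ∀ a ∈ Icc 1 A, ∀ b ∈ Icc 1 B, Q2 (F a) (G b) X Y a b σ ≤
      (X * M ^ 2) * (Y * M ^ 2) + 2 * (Y * M ^ 2) * ∑ k ∈ Icc 1 X,
        |rr (F a) X (b / Nat.gcd a b * k)| := by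
    intro a hma b hmb
    refine (hCo (F a) (G b) X Y a b σ (mem_Icc.1 hma).1 (mem_Icc.1 hmb).1 hσ).2.trans ?_
    refine add_le_add ?_ ?_
    · exact mul_le_mul ((le_abs_self _).trans (abs_rr_le_Bil _ _ _ M (hF a)))
        ((le_abs_self _).trans (abs_rr_le_Bil _ _ _ M (hG b)))
        (by
          rw [rr]
          exact sum_nonneg fun n _ => by rw [add_zero]; exact mul_self_nonneg _)
        (by positivity)
    · rw [mul_assoc]
      refine mul_le_mul_of_nonneg_left ?_ (by norm_num)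
      rw [mul_sum]
      calc ∑ k ∈ Icc 1 (min X Y), |rr (F a) X (b / Nat.gcd a b * k)| *
            |rr (G b) Y (a / Nat.gcd a b * k)|
          ≤ ∑ k ∈ Icc 1 (min X Y), Y * M ^ 2 * |rr (F a) X (b / Nat.gcd a b * k)| := by
            refine sum_le_sum fun k _ => ?_
            rw [mul_comm]
            exact mul_le_mul_of_nonneg_right (abs_rr_le_Bil _ _ _ M (hG b)) (abs_nonneg _)
        _ ≤ ∑ k ∈ Icc 1 X, Y * M ^ 2 * |rr (F a) X (b / Nat.gcd a b * k)| := by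
            refine sum_le_sum_of_subset_of_nonneg ?_ fun _ _ _ => by positivity
            exact Icc_subset_Icc le_rfl (min_le_left _ _)
  calc ∑ a ∈ Icc 1 A, ∑ b ∈ Icc 1 B, Q2 (F a) (G b) X Y a b σ
      ≤ ∑ a ∈ Icc 1 A, ∑ b ∈ Icc 1 B, ((X * M ^ 2) * (Y * M ^ 2) +
        2 * (Y * M ^ 2) * ∑ k ∈ Icc 1 X, |rr (F a) X (b / Nat.gcd a b * k)|) :=
        sum_le_sum fun a hma => sum_le_sum fun b hmb => hcell a hma b hmb
    _ = A * B * ((X * M ^ 2) * (Y * M ^ 2)) + 2 * (Y * M ^ 2) *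
        ∑ a ∈ Icc 1 A, ∑ b ∈ Icc 1 B, ∑ k ∈ Icc 1 X,
          |rr (F a) X (b / Nat.gcd a b * k)| := by
        simp only [sum_add_distrib, sum_const, Nat.card_Icc, nsmul_eq_mul, ← mul_sum,
          Nat.add_sub_cancel]
        ring
    _ ≤ A * B * ((X * M ^ 2) * (Y * M ^ 2)) + 2 * (Y * M ^ 2) *
        (A * LA * ((X : ℝ) ^ 2 * δ * √(T : ℝ) * (M * LB))) := by gcongr
    _ = M ^ 4 * (A * B * X * Y) +
        M ^ 3 * (2 * A * (X : ℝ) ^ 2 * Y * δ * √(T : ℝ) * (LA * LB)) := by ring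
    _ ≤ M ^ 4 * (A * B * X * Y) +
        M ^ 4 * (2 * A * (X : ℝ) ^ 2 * Y * δ * √(T : ℝ) * (LA * LB)) := by
        have h1 : M ^ 3 ≤ M ^ 4 := pow_le_pow_right₀ hM (by norm_num)
        gcongr
    _ = _ := by ring

end Pool.Agent.Helper83.PB
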