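import Pool.Agent.Helper58.PB.StA

/-!
# Project PB (MP_3923f3_nt), module NAX: natural coefficients, all heights
-/

set_option autoImplicit false

namespace Pool.Agent.Helper83.PB

open Finset
open Pool.Agent.Helper58.PB
open Pool.Agent.Helper48.BK (AdN)

/-- choice of the height -/
private theorem height_NAX (g D : ℕ) (hg : 1 ≤ g) :
    ∃ s j : ℕ, 16 ≤ s ∧ s ≤ 32 ∧ D ≤ 10 * (s * (2 ^ j * g)) ∧
      ((s * (2 ^ j * g) = 16 * g) ∨ 160 * (s * (2 ^ j * g)) ≤ 17 * D) := by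
  by_cases h0 : D ≤ 160 * g
  · exact ⟨16, 0, le_rfl, by norm_num, by simp only [pow_zero, one_mul]; omega,
      Or.inl (by simp only [pow_zero, one_mul])⟩
  push Not at h0
  have hex : ∃ j : ℕ, D < 320 * (2 ^ j * g) := by
    refine ⟨D, ?_⟩
    have h1 : D < 2 ^ D := Nat.lt_two_pow_self
    have h2 : 2 ^ D ≤ 2 ^ D * g := Nat.le_mul_of_pos_right _ (by omega)
    omega
  set j := Nat.find hex with hj
  have hj1 : D < 320 * (2 ^ j * g) := Nat.find_spec hex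
  have hj2 : 160 * (2 ^ j * g) ≤ D := by
    rcases Nat.eq_zero_or_pos j with h | h
    · rw [h]; simpa using h0.le
    · have h6 : ¬ D < 320 * (2 ^ (j - 1) * g) := Nat.find_min hex (by omega)
      have h8 : 2 ^ j * g = 2 * (2 ^ (j - 1) * g) := by
        conv_lhs => rw [show j = (j - 1) + 1 by omega]
        rw [pow_succ]; ring
      rw [h8]
      omega
  have hu1 : 1 ≤ 2 ^ j * g := Nat.mul_pos (by positivity) (by omega)
  have hs : ∀ u : ℕ, 1 ≤ u → D < 320 * u → 160 * u ≤ D →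
      ∃ s : ℕ, 16 ≤ s ∧ s ≤ 32 ∧ D ≤ 10 * (s * u) ∧ 160 * (s * u) ≤ 17 * D := by
    intro u hu h1 h2
    refine ⟨(D + 10 * u - 1) / (10 * u), ?_, ?_, ?_, ?_⟩
    · rw [Nat.le_div_iff_mul_le (by omega)]; omega
    · have : (D + 10 * u - 1) / (10 * u) < 33 := by
        rw [Nat.div_lt_iff_lt_mul (by omega)]; omega
      omega
    · have h3 := Nat.lt_mul_div_succ (D + 10 * u - 1) (b := 10 * u) (by omega)
      have h4 : 10 * u * ((D + 10 * u - 1) / (10 * u) + 1) =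
          10 * ((D + 10 * u - 1) / (10 * u) * u) + 10 * u := by ring
      omega
    · have h3 := Nat.div_mul_le_self (D + 10 * u - 1) (10 * u)
      have h4 : (D + 10 * u - 1) / (10 * u) * (10 * u) =
          10 * ((D + 10 * u - 1) / (10 * u) * u) := by ring
      omega
  obtain ⟨s, h1, h2, h3, h4⟩ := hs _ hu1 hj1 hj2
  exact ⟨s, j, h1, h2, h3, Or.inr h4⟩

/-- size of the primes -/
private theorem size_NAX {μ ε δ₂ : ℝ} (hμ : 1 < μ) (hε : ε ≤ (μ - 1) / 2) (hδ : 0 < δ₂)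
    (hδ2 : δ₂ * μ ≤ (μ - 1) / 10) {N m K g h D x y : ℕ} {d : ℤ} {M : ℝ}
    (hN : 1 ≤ N) (hm3 : 3 ≤ m) (hK1 : 1 ≤ K) (hK : (K : ℝ) ≤ 2 * (m : ℝ) ^ δ₂)
    (hg : (g : ℝ) ≤ 2 * (N * (m : ℝ) ^ (1 + ε))) (hD : D = d.natAbs)
    (hh : h = 16 * g ∨ 160 * h ≤ 17 * D) (hM : (m : ℝ) ≤ M * K)
    (E3 : 1792 * (2 : ℝ) ^ μ ≤ (m : ℝ) ^ (3 / 10 * (μ - 1)))
    (E4 : (6 : ℝ) ≤ (m : ℝ) ^ (9 / 10 * (μ - 1)))
    (hy : 1 ≤ y) (hyK : N ≤ y * K) (hxy : y * x ≤ 28 * h) :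
    (x : ℝ) ≤ bd μ N m M d := by
  have hN0 : (0 : ℝ) < N := by exact_mod_cast hN
  have hm1 : (1 : ℝ) ≤ m := by exact_mod_cast (by omega : 1 ≤ m)
  have hm0 : (0 : ℝ) < m := by linarith
  have hK0 : (0 : ℝ) < K := by exact_mod_cast hK1
  have hM0 : 0 ≤ M := by
    by_contra hc
    push Not at hc
    nlinarith
  have hDd : (D : ℝ) = |(d : ℝ)| := by rw [hD, Nat.cast_natAbs, Int.cast_abs]
  have hxy' : (y : ℝ) * x ≤ 28 * h := by exact_mod_cast hxy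
  have hy1 : (1 : ℝ) ≤ y := by exact_mod_cast hy
  have hx0 : (0 : ℝ) ≤ x := Nat.cast_nonneg x
  have hyK' : (N : ℝ) ≤ y * K := by exact_mod_cast hyK
  have hNx : (N : ℝ) * x ≤ K * (28 * h) := by
    calc (N : ℝ) * x ≤ y * K * x := by gcongr
      _ = K * (y * x) := by ring
      _ ≤ K * (28 * h) := by gcongr
  have hδμ : δ₂ ≤ (μ - 1) / 10 := by nlinarith
  rw [bd]
  rcases hh with hh | hh
  · -- small `d`
    have h1 : (h : ℝ) = 16 * g := by rw [hh]; push_cast; ring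
    have h2 : (N : ℝ) * x ≤ N * (1792 * (m : ℝ) ^ (1 + ε + δ₂)) := by
      calc (N : ℝ) * x ≤ K * (28 * h) := hNx
        _ = 448 * (K * g) := by rw [h1]; ring
        _ ≤ 448 * ((2 * (m : ℝ) ^ δ₂) * (2 * (N * (m : ℝ) ^ (1 + ε)))) := by gcongr
        _ = N * (1792 * ((m : ℝ) ^ (1 + ε) * (m : ℝ) ^ δ₂)) := by ring
        _ = N * (1792 * (m : ℝ) ^ (1 + ε + δ₂)) := by rw [← Real.rpow_add hm0]
    have h3 : (x : ℝ) ≤ 1792 * (m : ℝ) ^ (1 + ε + δ₂) := le_of_mul_le_mul_left h2 hN0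
    have h4 : 2 ^ μ * (1792 * (m : ℝ) ^ (1 + ε + δ₂)) ≤ (m : ℝ) ^ ((1 - δ₂) * μ) := by
      calc 2 ^ μ * (1792 * (m : ℝ) ^ (1 + ε + δ₂)) = 1792 * 2 ^ μ * (m : ℝ) ^ (1 + ε + δ₂) := by
            ring
        _ ≤ (m : ℝ) ^ (3 / 10 * (μ - 1)) * (m : ℝ) ^ (1 + ε + δ₂) := by gcongr
        _ = (m : ℝ) ^ (3 / 10 * (μ - 1) + (1 + ε + δ₂)) := by rw [← Real.rpow_add hm0]
        _ ≤ (m : ℝ) ^ ((1 - δ₂) * μ) := by
            refine Real.rpow_le_rpow_of_exponent_le hm1 ?_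
            nlinarith
    have h2μ : (1 : ℝ) ≤ 2 ^ μ := Real.one_le_rpow (by norm_num) (by linarith)
    have h5 : (m : ℝ) ^ (1 - δ₂) ≤ 2 * M := by
      have h6 : (m : ℝ) ≤ M * (2 * (m : ℝ) ^ δ₂) := hM.trans (by gcongr)
      have h7 : (m : ℝ) ^ (1 - δ₂) * (m : ℝ) ^ δ₂ = m := by
        rw [← Real.rpow_add hm0]; simp
      have h8 : (0 : ℝ) < (m : ℝ) ^ δ₂ := Real.rpow_pos_of_pos hm0 _
      have h9 : (m : ℝ) ^ (1 - δ₂) * (m : ℝ) ^ δ₂ ≤ (2 * M) * (m : ℝ) ^ δ₂ := by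
        rw [h7]; linarith
      exact le_of_mul_le_mul_right h9 h8
    have h6 : (m : ℝ) ^ ((1 - δ₂) * μ) ≤ 2 ^ μ * M ^ μ := by
      rw [Real.rpow_mul hm0.le, ← Real.mul_rpow (by norm_num) hM0]
      exact Real.rpow_le_rpow (Real.rpow_nonneg hm0.le _) h5 (by linarith)
    refine le_min ?_ ?_
    · have h7 : 1792 * (m : ℝ) ^ (1 + ε + δ₂) ≤ M ^ μ :=
        le_of_mul_le_mul_left (h4.trans h6) (by linarith)
      have := abs_nonneg (d : ℝ)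
      linarith
    · have h7 : 1792 * (m : ℝ) ^ (1 + ε + δ₂) ≤ (m : ℝ) ^ μ := by
        have h8 : (m : ℝ) ^ ((1 - δ₂) * μ) ≤ (m : ℝ) ^ μ := by
          refine Real.rpow_le_rpow_of_exponent_le hm1 ?_
          nlinarith
        have h9 : 0 ≤ 1792 * (m : ℝ) ^ (1 + ε + δ₂) := by positivity
        nlinarith
      have h8 : (m : ℝ) * (m : ℝ) ^ (μ - 1) = (m : ℝ) ^ μ := by
        rw [← Real.rpow_one_add' hm0.le (by linarith)]; congr 1; ring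
      have h9 : 0 ≤ |(d : ℝ)| / N * (m : ℝ) ^ (μ - 1) := by positivity
      rw [add_mul]
      linarith
  · -- large `d`
    have h1 : 160 * (h : ℝ) ≤ 17 * |(d : ℝ)| := by rw [← hDd]; exact_mod_cast hh
    have hd0 := abs_nonneg (d : ℝ)
    refine le_min ?_ ?_
    · have h2 : (x : ℝ) ≤ y * x := by nlinarith
      have h3 : 0 ≤ M ^ μ := Real.rpow_nonneg hM0 _
      linarith
    · have h2 : (N : ℝ) * x ≤ N * (|(d : ℝ)| / N * (m : ℝ) ^ (μ - 1)) := by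
        calc (N : ℝ) * x ≤ K * (28 * h) := hNx
          _ ≤ (2 * (m : ℝ) ^ δ₂) * (3 * |(d : ℝ)|) := by
              refine mul_le_mul hK ?_ (by positivity) (by positivity)
              linarith
          _ = 6 * (m : ℝ) ^ δ₂ * |(d : ℝ)| := by ring
          _ ≤ (m : ℝ) ^ (9 / 10 * (μ - 1)) * (m : ℝ) ^ δ₂ * |(d : ℝ)| := by gcongr
          _ = (m : ℝ) ^ (9 / 10 * (μ - 1) + δ₂) * |(d : ℝ)| := by rw [← Real.rpow_add hm0]
          _ ≤ (m : ℝ) ^ (μ - 1) * |(d : ℝ)| := by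
              refine mul_le_mul_of_nonneg_right ?_ hd0
              exact Real.rpow_le_rpow_of_exponent_le hm1 (by linarith)
          _ = _ := by field_simp
      have h3 := le_of_mul_le_mul_left h2 hN0
      have h4 : 0 ≤ (m : ℝ) * (m : ℝ) ^ (μ - 1) := by positivity
      rw [add_mul]
      linarith

/-- a geometric series -/
private theorem geo_NAX {r : ℝ} (h0 : 0 ≤ r) (h1 : r < 1) (J : ℕ) :
    ∑ j ∈ range J, r ^ j ≤ 1 / (1 - r) := by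
  have h2 : (0 : ℝ) < 1 - r := by linarith
  rw [le_div_iff₀ h2]
  have h3 : (∑ j ∈ range J, r ^ j) * (1 - r) = 1 - r ^ J := geom_sum_mul_neg r J
  rw [h3]
  have := pow_nonneg h0 J
  linarith

theorem hNax : StNax := by
  classical
  intro hO μ hμ
  set ε : ℝ := min 1 ((μ - 1) / 2) with hε
  have hε0 : 0 < ε := lt_min (by norm_num) (by linarith)
  have hε1 : ε ≤ 1 := min_le_left _ _
  have hε2 : ε ≤ (μ - 1) / 2 := min_le_right _ _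
  obtain ⟨δ₁, h₁, hδ₁, hO⟩ := hO ε hε0 hε1
  have hμ0 : 0 < μ := by linarith
  set δ₂ : ℝ := min (δ₁ / 2) ((μ - 1) / (10 * μ)) with hδ₂
  have hδ20 : 0 < δ₂ := lt_min (by linarith) (by apply div_pos <;> linarith)
  have hδ21 : δ₂ ≤ δ₁ / 2 := min_le_left _ _
  have hδ22 : δ₂ * μ ≤ (μ - 1) / 10 := by
    have : δ₂ ≤ (μ - 1) / (10 * μ) := min_le_right _ _
    calc δ₂ * μ ≤ (μ - 1) / (10 * μ) * μ := by gcongr
      _ = (μ - 1) / 10 := by field_simp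
  set r : ℝ := (2 : ℝ) ^ (-δ₁) with hr
  have hr0 : 0 ≤ r := Real.rpow_nonneg (by norm_num) _
  have hr1 : r < 1 := Real.rpow_lt_one_of_one_lt_of_neg (by norm_num) (by linarith)
  set C : ℝ := 17 * (1 / (1 - r)) with hC
  have hC0 : 0 ≤ C := by
    have : (0 : ℝ) < 1 - r := by linarith
    positivity
  have ev : ∀ (e B : ℝ), 0 < e → ∀ᶠ n : ℕ in Filter.atTop, B ≤ (n : ℝ) ^ e := fun e B he =>
    ((tendsto_rpow_atTop he).comp tendsto_natCast_atTop_atTop).eventually_ge_atTop B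
  have evh : ∀ᶠ n : ℕ in Filter.atTop, h₁ ≤ (n : ℝ) :=
    tendsto_natCast_atTop_atTop.eventually_ge_atTop h₁
  obtain ⟨m₁, hm₁⟩ := Filter.eventually_atTop.1
    (((((evh.and (ev (δ₁ / 2) 2 (by linarith))).and
      (ev (3 / 10 * (μ - 1)) (1792 * (2 : ℝ) ^ μ) (by linarith))).and
      (ev (9 / 10 * (μ - 1)) 6 (by linarith))).and (ev (δ₂ / 2) (3 + C) (by linarith))).and
      (Filter.eventually_ge_atTop 3))
  refine ⟨δ₂ / 2, m₁, by linarith, fun N m hm hN hNm => ?_⟩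
  obtain ⟨⟨⟨⟨⟨E1, E2⟩, E3⟩, E4⟩, E5⟩, E6⟩ := hm₁ m (by exact_mod_cast hm)
  have hm1 : (1 : ℝ) ≤ m := by exact_mod_cast (by omega : 1 ≤ m)
  have hm0 : (0 : ℝ) < m := by linarith
  have hN1 : (1 : ℝ) ≤ N := by exact_mod_cast hN
  have hN0 : (0 : ℝ) < N := by linarith
  -- `K`
  have hmδ : (1 : ℝ) ≤ (m : ℝ) ^ δ₂ := Real.one_le_rpow hm1 hδ20.le
  set K : ℕ := ⌈(m : ℝ) ^ δ₂⌉₊ with hK
  have hK1 : (m : ℝ) ^ δ₂ ≤ K := Nat.le_ceil _
  have hK2 : (K : ℝ) ≤ 2 * (m : ℝ) ^ δ₂ := by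
    have : (K : ℝ) < (m : ℝ) ^ δ₂ + 1 := Nat.ceil_lt_add_one (by positivity)
    linarith
  have hK3 : (1 : ℝ) ≤ K := hmδ.trans hK1
  have hK4 : 1 ≤ K := by exact_mod_cast hK3
  have hK0 : (0 : ℝ) < K := by linarith
  -- `lo`
  have hlo : ∀ x : ℕ, 1 ≤ x → 1 ≤ ⌈(x : ℝ) / K⌉₊ ∧ ⌈(x : ℝ) / K⌉₊ ≤ x ∧ x ≤ ⌈(x : ℝ) / K⌉₊ * K ∧
      ((⌈(x : ℝ) / K⌉₊ : ℕ) : ℝ) - 1 ≤ x / K := by
    intro x hx
    have hx0 : (0 : ℝ) < x := by exact_mod_cast hx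
    refine ⟨Nat.ceil_pos.2 (by positivity), ?_, ?_, ?_⟩
    · exact Nat.ceil_le.2 (div_le_self hx0.le hK3)
    · have h1 : (x : ℝ) / K ≤ ⌈(x : ℝ) / K⌉₊ := Nat.le_ceil _
      rw [div_le_iff₀ hK0] at h1
      exact_mod_cast h1
    · have : ((⌈(x : ℝ) / K⌉₊ : ℕ) : ℝ) < x / K + 1 := Nat.ceil_lt_add_one (by positivity)
      linarith
  obtain ⟨ha1, ha2, ha3, ha4⟩ := hlo N hN
  obtain ⟨hb1, hb2, hb3, hb4⟩ := hlo m (by omega)
  set lo : ℕ := ⌈(N : ℝ) / K⌉₊ with hlodef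
  set lo' : ℕ := ⌈(m : ℝ) / K⌉₊ with hlodef'
  -- the base height
  have hNm0 : (1 : ℝ) ≤ N * (m : ℝ) ^ (1 + ε) := by
    have : (1 : ℝ) ≤ (m : ℝ) ^ (1 + ε) := Real.one_le_rpow hm1 (by linarith)
    nlinarith
  set g : ℕ := ⌈(N : ℝ) * (m : ℝ) ^ (1 + ε)⌉₊ with hg
  have hg1 : (N : ℝ) * (m : ℝ) ^ (1 + ε) ≤ g := Nat.le_ceil _
  have hg2 : (g : ℝ) ≤ 2 * (N * (m : ℝ) ^ (1 + ε)) := by
    have : (g : ℝ) < N * (m : ℝ) ^ (1 + ε) + 1 := Nat.ceil_lt_add_one (by positivity)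
    linarith
  have hg3 : 1 ≤ g := by
    have : (1 : ℝ) ≤ g := hNm0.trans hg1
    exact_mod_cast this
  have hgm : (m : ℝ) ≤ g := by
    refine le_trans ?_ hg1
    have h1 : (m : ℝ) ≤ (m : ℝ) ^ (1 + ε) := by
      conv_lhs => rw [← Real.rpow_one (m : ℝ)]
      exact Real.rpow_le_rpow_of_exponent_le hm1 (by linarith)
    nlinarith
  -- the heights
  have hhj : ∀ s j : ℕ, 16 ≤ s → (g : ℝ) * 2 ^ j ≤ ((s * (2 ^ j * g) : ℕ) : ℝ) := by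
    intro s j hs
    have hs' : (1 : ℝ) ≤ s := by exact_mod_cast (by omega : 1 ≤ s)
    push_cast
    have : (0 : ℝ) ≤ 2 ^ j * g := by positivity
    nlinarith
  have hgj : ∀ j : ℕ, (g : ℝ) ≤ g * 2 ^ j := by
    intro j
    have : (1 : ℝ) ≤ 2 ^ j := one_le_pow₀ (by norm_num)
    have : (0 : ℝ) ≤ g := Nat.cast_nonneg g
    nlinarith
  -- the bad sets
  set B : ℕ × ℕ → Finset (ℕ × ℕ × ℕ) := fun x =>
    ((Icc lo N) ×ˢ (Icc lo N) ×ˢ (Icc lo' m)).filter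
      (fun v : ℕ × ℕ × ℕ => Bad1 (x.1 * (2 ^ x.2 * g)) v.1 v.2.1 v.2.2 ∨
        Bad2 (x.1 * (2 ^ x.2 * g)) v.1 v.2.1 v.2.2) with hB
  have hBcard : ∀ s j : ℕ, 16 ≤ s → ((B (s, j)).card : ℝ) ≤
      (N : ℝ) ^ 2 * m * ((m : ℝ) ^ (-δ₁) * r ^ j) := by
    intro s j hs
    have h1 := hhj s j hs
    have h2 := hgj j
    have h3 : (m : ℝ) ≤ ((s * (2 ^ j * g) : ℕ) : ℝ) := by linarith
    refine (hO (s * (2 ^ j * g)) N m lo lo' K (by linarith) ha1 ha2 ha3 hb1 hb2 hb3 hNm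
      (by linarith) ?_).trans ?_
    · calc (K : ℝ) ≤ 2 * (m : ℝ) ^ δ₂ := hK2
        _ ≤ (m : ℝ) ^ (δ₁ / 2) * (m : ℝ) ^ (δ₁ / 2) := by
            gcongr
        _ = (m : ℝ) ^ δ₁ := by rw [← Real.rpow_add hm0]; congr 1; ring
        _ ≤ _ := Real.rpow_le_rpow hm0.le h3 hδ₁.le
    · refine mul_le_mul_of_nonneg_left ?_ (by positivity)
      have h4 : (m : ℝ) ^ (-δ₁) * r ^ j = ((m : ℝ) * 2 ^ j) ^ (-δ₁) := by
        rw [Real.mul_rpow hm0.le (by positivity), hr, ← Real.rpow_natCast (2 : ℝ) j,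
          ← Real.rpow_natCast ((2 : ℝ) ^ (-δ₁)) j, ← Real.rpow_mul (by norm_num),
          ← Real.rpow_mul (by norm_num), mul_comm (-δ₁)]
      rw [h4]
      refine Real.rpow_le_rpow_of_nonpos (by positivity) ?_ (by linarith)
      refine le_trans ?_ h1
      gcongr
  -- large triples which are exceptional
  set S := ((Icc 1 N) ×ˢ (Icc 1 N) ×ˢ (Icc 1 m)).filter
    (fun v : ℕ × ℕ × ℕ => Ex1 μ N m v.1 v.2.1 v.2.2 ∨ Ex2 μ N m v.1 v.2.1 v.2.2) with hS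
  set S₁ := S.filter (fun v : ℕ × ℕ × ℕ => lo ≤ v.1 ∧ lo ≤ v.2.1 ∧ lo' ≤ v.2.2) with hS₁
  have hbad : ∀ v ∈ S₁, ∃ x : ℕ × ℕ, (16 ≤ x.1 ∧ x.1 ≤ 32) ∧ v ∈ B x := by
    intro v hv
    obtain ⟨a, b, c⟩ := v
    rw [hS₁, hS, Finset.mem_filter, Finset.mem_filter, Finset.mem_product,
      Finset.mem_product, Finset.mem_Icc, Finset.mem_Icc, Finset.mem_Icc] at hv
    obtain ⟨⟨⟨⟨ha, ha'⟩, ⟨hb, hb'⟩, ⟨hc, hc'⟩⟩, hex⟩, hla, hlb, hlc⟩ := hv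
    simp only at ha ha' hb hb' hc hc' hex hla hlb hlc
    have hNa : N ≤ a * K := ha3.trans (Nat.mul_le_mul_right _ hla)
    have hNb : N ≤ b * K := ha3.trans (Nat.mul_le_mul_right _ hlb)
    have hmc : m ≤ c * K := hb3.trans (Nat.mul_le_mul_right _ hlc)
    have hNc : N ≤ c * K := hNm.trans hmc
    have hM : (m : ℝ) ≤ ((max 3 (max a (max b c)) : ℕ) : ℝ) * K := by
      have h1 : m ≤ max 3 (max a (max b c)) * K := by
        refine hmc.trans (Nat.mul_le_mul_right _ ?_)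
        exact (le_max_right _ _).trans ((le_max_right _ _).trans (le_max_right _ _))
      exact_mod_cast h1
    have hsize : ∀ (d : ℤ) (s j x y : ℕ), (s * (2 ^ j * g) = 16 * g ∨
        160 * (s * (2 ^ j * g)) ≤ 17 * d.natAbs) → 1 ≤ y → N ≤ y * K →
        y * x ≤ 28 * (s * (2 ^ j * g)) →
        (x : ℝ) ≤ bd μ N m ((max 3 (max a (max b c)) : ℕ) : ℝ) d := by
      intro d s j x y h1 h2 h3 h4
      exact size_NAX hμ hε2 hδ20 hδ22 hN (by omega) hK4 hK2 hg2 rfl h1 hM E3 E4 h2 h3 h4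
    have hmax : ∀ (p q r : ℕ) (R : ℝ), (p : ℝ) ≤ R → (q : ℝ) ≤ R → (r : ℝ) ≤ R →
        ((max p (max q r) : ℕ) : ℝ) ≤ R := by
      intro p q r R h1 h2 h3
      push_cast
      exact max_le h1 (max_le h2 h3)
    rcases hex with ⟨d, had, hns⟩ | ⟨d, had, hns⟩
    · obtain ⟨s, j, hs1, hs2, hs3, hs4⟩ := height_NAX g d.natAbs hg3
      refine ⟨(s, j), ⟨hs1, hs2⟩, ?_⟩
      rw [hB]
      simp only [Finset.mem_filter, Finset.mem_product, Finset.mem_Icc]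
      refine ⟨⟨⟨hla, ha'⟩, ⟨hlb, hb'⟩, ⟨hlc, hc'⟩⟩, Or.inl ⟨d, ?_, had, ?_⟩⟩
      · rw [Int.abs_eq_natAbs]; exact_mod_cast hs3
      · rintro ⟨p, q, r, hp, hq, hr, heq, h1, h2, h3⟩
        refine hns ⟨p, q, r, hp, hq, hr, heq, hmax _ _ _ _ ?_ ?_ ?_⟩
        · exact hsize d s j p a hs4 ha hNa (h1.trans (Nat.mul_le_mul_right _ (by norm_num)))
        · exact hsize d s j q b hs4 hb hNb (h2.trans (Nat.mul_le_mul_right _ (by norm_num)))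
        · exact hsize d s j r c hs4 hc hNc h3
    · obtain ⟨s, j, hs1, hs2, hs3, hs4⟩ := height_NAX g d.natAbs hg3
      refine ⟨(s, j), ⟨hs1, hs2⟩, ?_⟩
      rw [hB]
      simp only [Finset.mem_filter, Finset.mem_product, Finset.mem_Icc]
      refine ⟨⟨⟨hla, ha'⟩, ⟨hlb, hb'⟩, ⟨hlc, hc'⟩⟩, Or.inr ⟨d, ?_, had, ?_⟩⟩
      · rw [Int.abs_eq_natAbs]; exact_mod_cast hs3
      · rintro ⟨p, q, r, hp, hq, hr, heq, h1, h2, h3⟩
        refine hns ⟨p, q, r, hp, hq, hr, heq, hmax _ _ _ _ ?_ ?_ ?_⟩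
        · exact hsize d s j p a hs4 ha hNa (h1.trans (Nat.mul_le_mul_right _ (by norm_num)))
        · exact hsize d s j q b hs4 hb hNb h3
        · exact hsize d s j r c hs4 hc hNc (h2.trans (Nat.mul_le_mul_right _ (by norm_num)))
  choose! f hf hf' using hbad
  have hS₁card : (S₁.card : ℝ) ≤ (N : ℝ) ^ 2 * m * (C * (m : ℝ) ^ (-δ₁)) := by
    have hsub : S₁ ⊆ ((Icc 16 32) ×ˢ (range (S₁.sup (fun v => (f v).2) + 1))).biUnion B := by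
      intro v hv
      rw [Finset.mem_biUnion]
      refine ⟨f v, Finset.mem_product.2 ⟨Finset.mem_Icc.2 (hf v hv), Finset.mem_range.2
        (Nat.lt_succ_of_le (Finset.le_sup (f := fun v => (f v).2) hv))⟩, hf' v hv⟩
    have h1 : (S₁.card : ℝ) ≤ ∑ x ∈ (Icc 16 32) ×ˢ (range (S₁.sup (fun v => (f v).2) + 1)),
        ((B x).card : ℝ) := by
      exact_mod_cast (Finset.card_le_card hsub).trans Finset.card_biUnion_le
    refine h1.trans ?_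
    rw [Finset.sum_product]
    calc ∑ s ∈ Icc 16 32, ∑ j ∈ range (S₁.sup (fun v => (f v).2) + 1), ((B (s, j)).card : ℝ)
        ≤ ∑ s ∈ Icc 16 32, (N : ℝ) ^ 2 * m * ((m : ℝ) ^ (-δ₁) * (1 / (1 - r))) := by
          refine sum_le_sum fun s hs => ?_
          refine (sum_le_sum fun j _ => hBcard s j (Finset.mem_Icc.1 hs).1).trans ?_
          rw [← Finset.mul_sum, ← Finset.mul_sum]
          have := geo_NAX hr0 hr1 (S₁.sup (fun v => (f v).2) + 1)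
          gcongr
      _ = _ := by
          rw [sum_const, Nat.card_Icc, nsmul_eq_mul, hC]
          push_cast
          ring
  -- small triples
  have hS₂card : (((S \ S₁).card : ℕ) : ℝ) ≤ (N : ℝ) ^ 2 * m * (3 * (m : ℝ) ^ (-δ₂)) := by
    have hsub : S \ S₁ ⊆ ((Icc 1 (lo - 1)) ×ˢ (Icc 1 N) ×ˢ (Icc 1 m)) ∪
        (((Icc 1 N) ×ˢ (Icc 1 (lo - 1)) ×ˢ (Icc 1 m)) ∪
          ((Icc 1 N) ×ˢ (Icc 1 N) ×ˢ (Icc 1 (lo' - 1)))) := by
      intro v hv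
      obtain ⟨hv1, hv2⟩ := Finset.mem_sdiff.1 hv
      have hv3 : ¬ (lo ≤ v.1 ∧ lo ≤ v.2.1 ∧ lo' ≤ v.2.2) :=
        fun h => hv2 (by rw [hS₁]; exact Finset.mem_filter.2 ⟨hv1, h⟩)
      rw [not_and_or, not_and_or] at hv3
      rw [hS, Finset.mem_filter, Finset.mem_product, Finset.mem_product, Finset.mem_Icc,
        Finset.mem_Icc, Finset.mem_Icc] at hv1
      simp only [Finset.mem_union, Finset.mem_product, Finset.mem_Icc]
      rcases hv3 with h | h | h <;> omega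
    have h1 : (S \ S₁).card ≤ (lo - 1) * (N * m) + (N * ((lo - 1) * m) + N * (N * (lo' - 1))) := by
      refine (Finset.card_le_card hsub).trans ((Finset.card_union_le _ _).trans ?_)
      refine (Nat.add_le_add_left (Finset.card_union_le _ _) _).trans ?_
      simp only [Finset.card_product, Nat.card_Icc, Nat.add_sub_cancel]
      exact le_rfl
    have h1' : (((S \ S₁).card : ℕ) : ℝ) ≤ ((lo : ℝ) - 1) * (N * m) +
        (N * (((lo : ℝ) - 1) * m) + N * (N * ((lo' : ℝ) - 1))) := by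
      have h2 : (((lo - 1 : ℕ)) : ℝ) = (lo : ℝ) - 1 := by rw [Nat.cast_sub ha1]; simp
      have h3 : (((lo' - 1 : ℕ)) : ℝ) = (lo' : ℝ) - 1 := by rw [Nat.cast_sub hb1]; simp
      rw [← h2, ← h3]
      exact_mod_cast h1
    refine h1'.trans ?_
    calc ((lo : ℝ) - 1) * (N * m) + (N * (((lo : ℝ) - 1) * m) + N * (N * ((lo' : ℝ) - 1)))
        ≤ (N / K) * (N * m) + (N * ((N / K) * m) + N * (N * (m / K))) := by gcongr
      _ = (N : ℝ) ^ 2 * m * (3 * (1 / K)) := by field_simp; norm_num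
      _ ≤ (N : ℝ) ^ 2 * m * (3 * (m : ℝ) ^ (-δ₂)) := by
          rw [Real.rpow_neg hm0.le, ← one_div]
          gcongr
  have hsplit : (S.card : ℝ) = (S₁.card : ℝ) + ((S \ S₁).card : ℝ) := by
    have : S₁.card + (S \ S₁).card = S.card := by
      rw [add_comm]
      exact Finset.card_sdiff_add_card_eq_card (Finset.filter_subset _ _)
    exact_mod_cast this.symm
  rw [hsplit]
  have hlast : C * (m : ℝ) ^ (-δ₁) + 3 * (m : ℝ) ^ (-δ₂) ≤ (m : ℝ) ^ (-(δ₂ / 2)) := by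
    have h1 : (m : ℝ) ^ (-δ₁) ≤ (m : ℝ) ^ (-δ₂) :=
      Real.rpow_le_rpow_of_exponent_le hm1 (by linarith)
    have h2 : C * (m : ℝ) ^ (-δ₁) ≤ C * (m : ℝ) ^ (-δ₂) := by gcongr
    have h3 : (m : ℝ) ^ (-(δ₂ / 2)) = (m : ℝ) ^ (δ₂ / 2) * (m : ℝ) ^ (-δ₂) := by
      rw [← Real.rpow_add hm0]; congr 1; ring
    have h4 : (3 + C) * (m : ℝ) ^ (-δ₂) ≤ (m : ℝ) ^ (δ₂ / 2) * (m : ℝ) ^ (-δ₂) := by gcongr
    rw [h3]
    linarith
  have h1 : (m : ℝ) ^ (1 - δ₂ / 2) = m * (m : ℝ) ^ (-(δ₂ / 2)) := by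
    rw [show (1 : ℝ) - δ₂ / 2 = 1 + -(δ₂ / 2) by ring, Real.rpow_add hm0, Real.rpow_one]
  calc (S₁.card : ℝ) + ((S \ S₁).card : ℝ)
      ≤ (N : ℝ) ^ 2 * m * (C * (m : ℝ) ^ (-δ₁)) + (N : ℝ) ^ 2 * m * (3 * (m : ℝ) ^ (-δ₂)) :=
        add_le_add hS₁card hS₂card
    _ = (N : ℝ) ^ 2 * m * (C * (m : ℝ) ^ (-δ₁) + 3 * (m : ℝ) ^ (-δ₂)) := by ring
    _ ≤ (N : ℝ) ^ 2 * m * (m : ℝ) ^ (-(δ₂ / 2)) := by gcongr
    _ = _ := by rw [h1]; ring

end Pool.Agent.Helper83.PB
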